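import Mathlib
import Pool.Agent.H749Z.TF.Defs
import Pool.Agent.H749Z.TF.Main

set_option autoImplicit false

namespace Pool.Agent.Results.MP_f7be6d_mp.ASmallCharge

open H749Z.TF

/-- The Thomas-Fermi energy is not a lower bound for the quantum energy in general: for one
electron and one nucleus of small charge `z > 0`, `E^Q < E^TF`. -/
theorem result :
    (¬ ∀ (N k : ℕ) (z : Fin k → ℝ) (R : Fin k → E3), 1 ≤ N → 1 ≤ k → (∀ j, 0 < z j) →
      Function.Injective R → ETF N z R ≤ EQ N z R) ∧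
    ∃ z0 : ℝ, 0 < z0 ∧ ∀ z : ℝ, 0 < z → z ≤ z0 →
      EQ 1 (fun _ : Fin 1 => z) (fun _ => 0) < ETF 1 (fun _ : Fin 1 => z) (fun _ => 0) := by
  refine ⟨fun h => ?_, main⟩
  obtain ⟨z, hz, h'⟩ := main
  exact absurd (h 1 1 (fun _ => z) (fun _ => 0) le_rfl le_rfl (fun _ => hz)
    (Function.injective_of_subsingleton _)) (not_le.2 (h' z hz le_rfl))

end Pool.Agent.Results.MP_f7be6d_mp.ASmallCharge
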